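import Pool.Agent.Compl.Defs

set_option autoImplicit false

/-!
Block diagonal operators on `ℓ²`.
-/

open scoped ComplexConjugate BigOperators
open Pool.Agent.Compl

namespace Pool.Agent.Helper23.KC

lemma hasSum_sq (x : L2) : HasSum (fun k => ‖x k‖ ^ 2) (‖x‖ ^ 2) := by
  have h := lp.hasSum_norm (p := 2) (by norm_num) x
  simpa using h

lemma summable_sq (x : L2) : Summable (fun k => ‖x k‖ ^ 2) := (hasSum_sq x).summable

lemma dl_apply (k l : ℕ) : dl k l = if l = k then 1 else 0 := by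
  unfold dl
  rw [lp.single_apply, Pi.single_apply]

section fin

variable {X : Type*} [Fintype X]

/-- the vector with coefficients `ξ` -/
noncomputable def vec (e : X → ℕ) (ξ : X → ℂ) : L2 := ∑ j, ξ j • dl (e j)

lemma coe_sum' {ι : Type*} (s : Finset ι) (f : ι → L2) (k : ℕ) :
    (∑ i ∈ s, f i : L2) k = ∑ i ∈ s, f i k := by
  rw [lp.coeFn_sum, Finset.sum_apply]

lemma vec_apply (e : X → ℕ) (ξ : X → ℂ) (k : ℕ) :
    vec e ξ k = ∑ j, ξ j * (if k = e j then 1 else 0) := by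
  unfold vec
  rw [coe_sum']
  refine Finset.sum_congr rfl fun j _ => ?_
  rw [lp.coeFn_smul, Pi.smul_apply, dl_apply, smul_eq_mul]

lemma vec_apply_e {e : X → ℕ} (he : Function.Injective e) (ξ : X → ℂ) (i : X) :
    vec e ξ (e i) = ξ i := by
  classical
  rw [vec_apply, Finset.sum_eq_single i]
  · simp
  · intro j _ hj
    rw [if_neg (fun h => hj (he h).symm), mul_zero]
  · intro h
    exact absurd (Finset.mem_univ _) h

lemma vec_apply_ne {e : X → ℕ} (ξ : X → ℂ) {k : ℕ} (hk : ∀ i, k ≠ e i) :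
    vec e ξ k = 0 := by
  rw [vec_apply]
  refine Finset.sum_eq_zero fun j _ => ?_
  rw [if_neg (hk j), mul_zero]

lemma norm_vec {e : X → ℕ} (he : Function.Injective e) (ξ : X → ℂ) :
    ‖vec e ξ‖ ^ 2 = ∑ j, ‖ξ j‖ ^ 2 := by
  rw [← (hasSum_sq (vec e ξ)).tsum_eq]
  have h1 : Function.support (fun k => ‖vec e ξ k‖ ^ 2) ⊆ Set.range e := by
    intro k hk
    by_contra h
    apply hk
    simp only
    rw [vec_apply_ne ξ (fun i hi => h ⟨i, hi.symm⟩)]
    simp
  rw [← he.tsum_eq h1, tsum_fintype]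
  exact Finset.sum_congr rfl fun i _ => by rw [vec_apply_e he]

lemma norm_vec_le {e : X → ℕ} (he : Function.Injective e) {ξ : X → ℂ} (hξ : UB ξ) :
    ‖vec e ξ‖ ≤ 1 := by
  have h1 := norm_vec he ξ
  have h2 : ‖vec e ξ‖ ^ 2 ≤ 1 := by rw [h1]; exact hξ
  nlinarith [norm_nonneg (vec e ξ)]

lemma sum_sq_le {e : X → ℕ} (he : Function.Injective e) (y : L2) :
    ∑ i, ‖y (e i)‖ ^ 2 ≤ ‖y‖ ^ 2 := by
  classical
  rw [← (hasSum_sq y).tsum_eq]
  have h1 : ∑ i, ‖y (e i)‖ ^ 2 = ∑ k ∈ Finset.univ.image e, ‖y k‖ ^ 2 := by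
    rw [Finset.sum_image]
    exact fun a _ b _ h => he h
  rw [h1]
  exact (summable_sq y).sum_le_tsum _ fun k _ => by positivity

lemma cs {η z : X → ℂ} (hη : UB η) : ‖∑ i, conj (η i) * z i‖ ^ 2 ≤ ∑ i, ‖z i‖ ^ 2 := by
  have h1 : ‖∑ i, conj (η i) * z i‖ ≤ ∑ i, ‖η i‖ * ‖z i‖ := by
    refine (norm_sum_le _ _).trans (le_of_eq ?_)
    refine Finset.sum_congr rfl fun i _ => ?_
    rw [norm_mul, RCLike.norm_conj]
  have h2 := Finset.sum_mul_sq_le_sq_mul_sq Finset.univ (fun i => ‖η i‖) (fun i => ‖z i‖)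
  have h3 : 0 ≤ ∑ i, ‖η i‖ * ‖z i‖ := Finset.sum_nonneg fun i _ => by positivity
  have h4 : 0 ≤ ∑ i, ‖z i‖ ^ 2 := Finset.sum_nonneg fun i _ => by positivity
  calc ‖∑ i, conj (η i) * z i‖ ^ 2 ≤ (∑ i, ‖η i‖ * ‖z i‖) ^ 2 := by
        gcongr
    _ ≤ (∑ i, ‖η i‖ ^ 2) * ∑ i, ‖z i‖ ^ 2 := h2
    _ ≤ 1 * ∑ i, ‖z i‖ ^ 2 := by
        gcongr
        exact hη
    _ = _ := one_mul _

/-- the form of a compression -/
lemma frm_cut (e : X → ℕ) (T : BL) (ξ η : X → ℂ) :
    frm (cut e T) ξ η = ∑ i, conj (η i) * T (vec e ξ) (e i) := by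
  unfold frm cut vec
  refine Finset.sum_congr rfl fun i _ => ?_
  rw [map_sum, coe_sum', Finset.mul_sum]
  refine Finset.sum_congr rfl fun j _ => ?_
  rw [map_smul, lp.coeFn_smul, Pi.smul_apply, smul_eq_mul]
  ring

theorem frm_cut_le (e : X → ℕ) (he : Function.Injective e) (T : BL)
    (ξ η : X → ℂ) (hξ : UB ξ) (hη : UB η) : ‖frm (cut e T) ξ η‖ ≤ ‖T‖ := by
  rw [frm_cut]
  have h1 := (cs (z := fun i => T (vec e ξ) (e i)) hη).trans (sum_sq_le he (T (vec e ξ)))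
  have h2 : ‖T (vec e ξ)‖ ≤ ‖T‖ := by
    refine (T.le_opNorm _).trans ?_
    have := norm_vec_le he hξ
    nlinarith [norm_nonneg T]
  have h3 : ‖∑ i, conj (η i) * T (vec e ξ) (e i)‖ ≤ ‖T (vec e ξ)‖ :=
    le_of_sq_le_sq h1 (norm_nonneg _)
  exact h3.trans h2

end fin

section sig

variable {X : ℕ → Type} [∀ n, Fintype (X n)] {e : (Σ n, X n) → ℕ}

lemma block_sum_tendsto (he : Function.Injective e) (y : L2) :
    Filter.Tendsto (fun n => ∑ i : X n, ‖y (e ⟨n, i⟩)‖ ^ 2) Filter.atTop (nhds 0) := by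
  have h1 : Summable (fun p : Σ n, X n => ‖y (e p)‖ ^ 2) := (summable_sq y).comp_injective he
  have h2 := h1.sigma
  have h3 : (fun n => ∑' i : X n, ‖y (e ⟨n, i⟩)‖ ^ 2) =
      fun n => ∑ i : X n, ‖y (e ⟨n, i⟩)‖ ^ 2 := by
    ext n
    rw [tsum_fintype]
  rw [← h3]
  exact h2.tendsto_atTop_zero

theorem compact_small {X : ℕ → Type} [∀ n, Fintype (X n)] (e : (Σ n, X n) → ℕ)
    (he : Function.Injective e) (T : BL) (hT : IsCompactOperator (⇑T)) (δ : ℝ)
    (hδ : 0 < δ) :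
    ∃ N, ∀ n, N ≤ n → ∀ ξ η : X n → ℂ, UB ξ → UB η →
      ‖frm (cut (fun x : X n => e ⟨n, x⟩) T) ξ η‖ ≤ δ := by
  have hK : IsCompact (closure (T '' Metric.closedBall 0 1)) :=
    IsCompactOperator.isCompact_closure_image_closedBall (f := (T : L2 →ₗ[ℂ] L2)) hT 1
  obtain ⟨t, htf, ht⟩ := Metric.totallyBounded_iff.1 hK.totallyBounded (δ / 2) (by positivity)
  have h1 : ∀ y ∈ t, ∃ N, ∀ n, N ≤ n → ∑ i : X n, ‖y (e ⟨n, i⟩)‖ ^ 2 ≤ (δ / 2) ^ 2 := by
    intro y _
    have := (block_sum_tendsto (X := X) he y).eventually (Iic_mem_nhds (show 0 < (δ / 2) ^ 2 by positivity))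
    obtain ⟨N, hN⟩ := Filter.eventually_atTop.1 this
    exact ⟨N, hN⟩
  choose! N hN using h1
  obtain ⟨N₀, hN₀⟩ : ∃ N₀, ∀ y ∈ t, N y ≤ N₀ := by
    obtain ⟨N₀, h⟩ := (htf.image N).bddAbove
    exact ⟨N₀, fun y hy => h (Set.mem_image_of_mem N hy)⟩
  refine ⟨N₀, fun n hn ξ η hξ hη => ?_⟩
  have hen : Function.Injective (fun x : X n => e ⟨n, x⟩) := by
    intro x y h
    have := he h
    simpa using this
  rw [frm_cut]
  set v := vec (fun x : X n => e ⟨n, x⟩) ξ with hv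
  have hTv : T v ∈ closure (T '' Metric.closedBall 0 1) :=
    subset_closure ⟨v, by simpa using norm_vec_le hen hξ, rfl⟩
  obtain ⟨y, hy, hyT⟩ := Set.mem_iUnion₂.1 (ht hTv)
  have h2 : ∑ i, conj (η i) * T v (e ⟨n, i⟩) = ∑ i, conj (η i) * (T v - y) (e ⟨n, i⟩) +
      ∑ i, conj (η i) * y (e ⟨n, i⟩) := by
    rw [← Finset.sum_add_distrib]
    refine Finset.sum_congr rfl fun i _ => ?_
    rw [lp.coeFn_sub, Pi.sub_apply]
    ring
  have h3 : ‖∑ i, conj (η i) * (T v - y) (e ⟨n, i⟩)‖ ≤ δ / 2 := by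
    have h4 := (cs (z := fun i => (T v - y) (e ⟨n, i⟩)) hη).trans (sum_sq_le hen (T v - y))
    have h5 : ‖T v - y‖ ≤ δ / 2 := by
      rw [← dist_eq_norm]
      exact le_of_lt hyT
    exact (le_of_sq_le_sq h4 (norm_nonneg _)).trans h5
  have h6 : ‖∑ i, conj (η i) * y (e ⟨n, i⟩)‖ ≤ δ / 2 := by
    have h4 := (cs (z := fun i => y (e ⟨n, i⟩)) hη).trans (hN y hy n ((hN₀ y hy).trans hn))
    exact le_of_sq_le_sq h4 (by positivity)
  show ‖∑ i, conj (η i) * T v (e ⟨n, i⟩)‖ ≤ δ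
  rw [h2]
  refine (norm_add_le _ _).trans ?_
  linarith

/-- coordinates of the block diagonal operator -/
noncomputable def co (e : (Σ n, X n) → ℕ) (a : ∀ n, Matrix (X n) (X n) ℂ) (x : ℕ → ℂ) : ℕ → ℂ :=
  Function.extend e (fun p : Σ n, X n => ∑ j, a p.1 p.2 j * x (e ⟨p.1, j⟩)) 0

lemma co_apply (he : Function.Injective e) (a : ∀ n, Matrix (X n) (X n) ℂ) (x : ℕ → ℂ) (n : ℕ)
    (i : X n) : co e a x (e ⟨n, i⟩) = ∑ j, a n i j * x (e ⟨n, j⟩) := by
  unfold co
  rw [he.extend_apply]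

lemma co_apply_ne (a : ∀ n, Matrix (X n) (X n) ℂ) (x : ℕ → ℂ) {k : ℕ} (hk : ∀ p, e p ≠ k) :
    co e a x k = 0 := by
  unfold co
  rw [Function.extend_apply' _ _ _ (by rintro ⟨p, hp⟩; exact hk p hp)]
  rfl

lemma co_hasSum (he : Function.Injective e) {a : ∀ n, Matrix (X n) (X n) ℂ} {C : ℝ}
    (h : ∀ n, OpBd (a n) C) (x : L2) :
    Summable (fun k => ‖co e a x k‖ ^ 2) ∧ ∑' k, ‖co e a x k‖ ^ 2 ≤ (C * ‖x‖) ^ 2 := by
  have hx : Summable (fun p : Σ n, X n => ‖x (e p)‖ ^ 2) := (summable_sq x).comp_injective he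
  have hx2 : Summable (fun n => ∑ i : X n, ‖x (e ⟨n, i⟩)‖ ^ 2) := by
    have := hx.sigma
    simpa only [tsum_fintype] using this
  have hle : ∀ n, ∑ i : X n, ‖∑ j, a n i j * x (e ⟨n, j⟩)‖ ^ 2 ≤
      C ^ 2 * ∑ i : X n, ‖x (e ⟨n, i⟩)‖ ^ 2 := fun n => (h n).2 _
  have hsb : Summable (fun n => ∑ i : X n, ‖∑ j, a n i j * x (e ⟨n, j⟩)‖ ^ 2) :=
    Summable.of_nonneg_of_le (fun n => Finset.sum_nonneg fun i _ => by positivity) hle
      (hx2.mul_left _)
  have hsig : Summable (fun p : Σ n, X n => ‖∑ j, a p.1 p.2 j * x (e ⟨p.1, j⟩)‖ ^ 2) := by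
    refine (summable_sigma_of_nonneg fun p => by positivity).2 ⟨fun n => ?_, ?_⟩
    · exact (hasSum_fintype _).summable
    · simpa only [tsum_fintype] using hsb
  have hcomp : (fun k => ‖co e a x k‖ ^ 2) ∘ e =
      fun p : Σ n, X n => ‖∑ j, a p.1 p.2 j * x (e ⟨p.1, j⟩)‖ ^ 2 := by
    ext p
    simp only [Function.comp_apply]
    rw [show e p = e ⟨p.1, p.2⟩ from rfl, co_apply he]
  have hzero : ∀ k, k ∉ Set.range e → ‖co e a x k‖ ^ 2 = 0 := by
    intro k hk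
    rw [co_apply_ne a x (fun p hp => hk ⟨p, hp⟩)]
    simp
  have hs : Summable (fun k => ‖co e a x k‖ ^ 2) := by
    rw [← he.summable_iff hzero, hcomp]
    exact hsig
  refine ⟨hs, ?_⟩
  have h1 : ∑' k, ‖co e a x k‖ ^ 2 = ∑' p : Σ n, X n, ‖∑ j, a p.1 p.2 j * x (e ⟨p.1, j⟩)‖ ^ 2 := by
    have hsup : Function.support (fun k => ‖co e a x k‖ ^ 2) ⊆ Set.range e := by
      intro k hk
      by_contra h'
      exact hk (hzero k h')
    rw [← he.tsum_eq hsup]
    exact tsum_congr fun p => congrFun hcomp p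
  rw [h1, hsig.tsum_sigma]
  simp only [tsum_fintype]
  calc ∑' n, ∑ i : X n, ‖∑ j, a n i j * x (e ⟨n, j⟩)‖ ^ 2
      ≤ ∑' n, C ^ 2 * ∑ i : X n, ‖x (e ⟨n, i⟩)‖ ^ 2 :=
        hsb.tsum_le_tsum hle (hx2.mul_left _)
    _ = C ^ 2 * ∑' n, ∑ i : X n, ‖x (e ⟨n, i⟩)‖ ^ 2 := tsum_mul_left
    _ = C ^ 2 * ∑' p : Σ n, X n, ‖x (e p)‖ ^ 2 := by
        rw [hx.tsum_sigma]
        simp only [tsum_fintype]
    _ ≤ C ^ 2 * ‖x‖ ^ 2 := by
        gcongr
        rw [← (hasSum_sq x).tsum_eq]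
        exact tsum_comp_le_tsum_of_inj (summable_sq x) (fun k => by positivity) he
    _ = (C * ‖x‖) ^ 2 := by ring

/-- the block diagonal operator of a bounded family -/
noncomputable def blk (he : Function.Injective e) (a : ∀ n, Matrix (X n) (X n) ℂ) (C : ℝ)
    (h : ∀ n, OpBd (a n) C) : BL :=
  LinearMap.mkContinuous
    { toFun := fun x => (⟨co e a x, memℓp_gen (by simpa using (co_hasSum he h x).1)⟩ : L2)
      map_add' := by
        intro x y
        apply lp.ext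
        funext k
        show co e a ((x + y : L2) : ℕ → ℂ) k = co e a x k + co e a y k
        by_cases hk : ∃ p, e p = k
        · obtain ⟨⟨n, i⟩, rfl⟩ := hk
          rw [co_apply he, co_apply he, co_apply he, ← Finset.sum_add_distrib]
          refine Finset.sum_congr rfl fun j _ => ?_
          rw [lp.coeFn_add, Pi.add_apply]
          ring
        · have hk' : ∀ p, e p ≠ k := fun p hp => hk ⟨p, hp⟩
          rw [co_apply_ne a _ hk', co_apply_ne a _ hk', co_apply_ne a _ hk', add_zero]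
      map_smul' := by
        intro c x
        apply lp.ext
        funext k
        show co e a ((c • x : L2) : ℕ → ℂ) k = c * co e a x k
        by_cases hk : ∃ p, e p = k
        · obtain ⟨⟨n, i⟩, rfl⟩ := hk
          rw [co_apply he, co_apply he, Finset.mul_sum]
          refine Finset.sum_congr rfl fun j _ => ?_
          rw [lp.coeFn_smul, Pi.smul_apply, smul_eq_mul]
          ring
        · have hk' : ∀ p, e p ≠ k := fun p hp => hk ⟨p, hp⟩
          rw [co_apply_ne a _ hk', co_apply_ne a _ hk', mul_zero] } C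
    (by
      intro x
      have h1 := (co_hasSum he h x).2
      set y : L2 := ⟨co e a x, memℓp_gen (by simpa using (co_hasSum he h x).1)⟩ with hy
      show ‖y‖ ≤ C * ‖x‖
      have h2 : ‖y‖ ^ 2 = ∑' k, ‖co e a x k‖ ^ 2 := (hasSum_sq y).tsum_eq.symm
      have hC : 0 ≤ C := (h 0).1
      exact le_of_sq_le_sq (by rw [h2]; exact h1) (by positivity))

lemma blk_apply (he : Function.Injective e) (a : ∀ n, Matrix (X n) (X n) ℂ) (C : ℝ)
    (h : ∀ n, OpBd (a n) C) (x : L2) (k : ℕ) : blk he a C h x k = co e a x k := rfl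

lemma blk_norm (he : Function.Injective e) (a : ∀ n, Matrix (X n) (X n) ℂ) (C : ℝ)
    (h : ∀ n, OpBd (a n) C) : ‖blk he a C h‖ ≤ C :=
  LinearMap.mkContinuous_norm_le _ (h 0).1 _

end sig

section opbd

variable {X : Type*} [Fintype X]

lemma OpBd_mono {M : Matrix X X ℂ} {C C' : ℝ} (h : OpBd M C) (hC : C ≤ C') : OpBd M C' := by
  refine ⟨h.1.trans hC, fun ξ => (h.2 ξ).trans ?_⟩
  have h0 := h.1
  have h1 : C ^ 2 ≤ C' ^ 2 := by nlinarith
  exact mul_le_mul_of_nonneg_right h1 (Finset.sum_nonneg fun i _ => by positivity)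

lemma OpBd_zero : OpBd (0 : Matrix X X ℂ) 0 := by
  refine ⟨le_rfl, fun ξ => ?_⟩
  simp

lemma OpBd_smul {M : Matrix X X ℂ} {C : ℝ} (h : OpBd M C) (c : ℂ) : OpBd (c • M) (‖c‖ * C) := by
  refine ⟨mul_nonneg (norm_nonneg _) h.1, fun ξ => ?_⟩
  have h1 : ∀ i, ‖∑ j, (c • M) i j * ξ j‖ ^ 2 = ‖c‖ ^ 2 * ‖∑ j, M i j * ξ j‖ ^ 2 := by
    intro i
    rw [← mul_pow, ← norm_mul, Finset.mul_sum]
    congr 2
    refine Finset.sum_congr rfl fun j _ => ?_
    rw [Matrix.smul_apply, smul_eq_mul]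
    ring
  simp_rw [h1]
  rw [← Finset.mul_sum, mul_pow, mul_assoc]
  exact mul_le_mul_of_nonneg_left (h.2 ξ) (by positivity)

lemma sum_sq_eq (u : X → ℂ) : ∑ i, ‖u i‖ ^ 2 = ‖(WithLp.toLp 2 u : EuclideanSpace ℂ X)‖ ^ 2 := by
  rw [EuclideanSpace.norm_sq_eq]

lemma OpBd_add {M N : Matrix X X ℂ} {C D : ℝ} (h : OpBd M C) (h' : OpBd N D) :
    OpBd (M + N) (C + D) := by
  refine ⟨add_nonneg h.1 h'.1, fun ξ => ?_⟩
  have e1 := h.2 ξ
  have e2 := h'.2 ξ
  have h1 : ∀ i, ∑ j, (M + N) i j * ξ j = ∑ j, M i j * ξ j + ∑ j, N i j * ξ j := by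
    intro i
    rw [← Finset.sum_add_distrib]
    refine Finset.sum_congr rfl fun j _ => ?_
    rw [Matrix.add_apply]
    ring
  simp_rw [h1]
  rw [sum_sq_eq (fun i => ∑ j, M i j * ξ j), sum_sq_eq ξ] at e1
  rw [sum_sq_eq (fun i => ∑ j, N i j * ξ j), sum_sq_eq ξ] at e2
  rw [sum_sq_eq (fun i => ∑ j, M i j * ξ j + ∑ j, N i j * ξ j), sum_sq_eq ξ]
  set u : EuclideanSpace ℂ X := WithLp.toLp 2 (fun i => ∑ j, M i j * ξ j)
  set w : EuclideanSpace ℂ X := WithLp.toLp 2 (fun i => ∑ j, N i j * ξ j)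
  set z : EuclideanSpace ℂ X := WithLp.toLp 2 ξ
  have h2 : (WithLp.toLp 2 (fun i => ∑ j, M i j * ξ j + ∑ j, N i j * ξ j) : EuclideanSpace ℂ X) =
      u + w := rfl
  rw [h2]
  have h3 : ‖u‖ ≤ C * ‖z‖ := by
    refine le_of_sq_le_sq ?_ (mul_nonneg h.1 (norm_nonneg _))
    rw [mul_pow]
    exact e1
  have h4 : ‖w‖ ≤ D * ‖z‖ := by
    refine le_of_sq_le_sq ?_ (mul_nonneg h'.1 (norm_nonneg _))
    rw [mul_pow]
    exact e2
  have h5 := norm_add_le u w
  have h6 : ‖u + w‖ ≤ (C + D) * ‖z‖ := by linarith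
  have h7 := norm_nonneg (u + w)
  calc ‖u + w‖ ^ 2 ≤ ((C + D) * ‖z‖) ^ 2 := by gcongr
    _ = (C + D) ^ 2 * ‖z‖ ^ 2 := by ring

lemma exists_OpBd (M : Matrix X X ℂ) : ∃ C, OpBd M C := by
  refine ⟨Real.sqrt (∑ i, ∑ j, ‖M i j‖ ^ 2), Real.sqrt_nonneg _, fun ξ => ?_⟩
  rw [Real.sq_sqrt (Finset.sum_nonneg fun i _ => Finset.sum_nonneg fun j _ => by positivity),
    Finset.sum_mul]
  refine Finset.sum_le_sum fun i _ => ?_
  have h1 : ‖∑ j, M i j * ξ j‖ ≤ ∑ j, ‖M i j‖ * ‖ξ j‖ := by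
    refine (norm_sum_le _ _).trans (le_of_eq ?_)
    exact Finset.sum_congr rfl fun j _ => norm_mul _ _
  have h3 : 0 ≤ ∑ j, ‖M i j‖ * ‖ξ j‖ := Finset.sum_nonneg fun j _ => by positivity
  calc ‖∑ j, M i j * ξ j‖ ^ 2 ≤ (∑ j, ‖M i j‖ * ‖ξ j‖) ^ 2 := by gcongr
    _ ≤ _ := Finset.sum_mul_sq_le_sq_mul_sq Finset.univ (fun j => ‖M i j‖) (fun j => ‖ξ j‖)

end opbd

theorem block {X : ℕ → Type} [∀ n, Fintype (X n)] (e : (Σ n, X n) → ℕ) (he : Function.Injective e) :
    ∃ J : (∀ n, Matrix (X n) (X n) ℂ) →ₗ[ℂ] BL,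
      (∀ (a : ∀ n, Matrix (X n) (X n) ℂ) (C : ℝ), (∀ n, OpBd (a n) C) → ‖J a‖ ≤ C) ∧
      (∀ (a : ∀ n, Matrix (X n) (X n) ℂ) (C : ℝ), (∀ n, OpBd (a n) C) →
        ∀ n, cut (fun x : X n => e ⟨n, x⟩) (J a) = a n) ∧
      (∀ a : ∀ n, Matrix (X n) (X n) ℂ, (∃ N, ∀ n, N < n → a n = 0) →
        IsCompactOperator (⇑(J a))) := by
  let Vb : Submodule ℂ (∀ n, Matrix (X n) (X n) ℂ) :=
    { carrier := {a | ∃ C, ∀ n, OpBd (a n) C}
      add_mem' := by
        rintro a b ⟨C, hC⟩ ⟨D, hD⟩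
        exact ⟨C + D, fun n => OpBd_add (hC n) (hD n)⟩
      zero_mem' := ⟨0, fun n => OpBd_zero⟩
      smul_mem' := by
        rintro c a ⟨C, hC⟩
        exact ⟨‖c‖ * C, fun n => OpBd_smul (hC n) c⟩ }
  have blk_ext : ∀ (T T' : BL), (∀ x k, T x k = T' x k) → T = T' := by
    intro T T' h
    ext x : 1
    apply lp.ext
    funext k
    exact h x k
  have co_add : ∀ (a b : ∀ n, Matrix (X n) (X n) ℂ) (x : ℕ → ℂ) (k : ℕ),
      co e (a + b) x k = co e a x k + co e b x k := by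
    intro a b x k
    by_cases hk : ∃ p, e p = k
    · obtain ⟨⟨n, i⟩, rfl⟩ := hk
      rw [co_apply he, co_apply he, co_apply he, ← Finset.sum_add_distrib]
      refine Finset.sum_congr rfl fun j _ => ?_
      rw [Pi.add_apply, Matrix.add_apply]
      ring
    · have hk' : ∀ p, e p ≠ k := fun p hp => hk ⟨p, hp⟩
      rw [co_apply_ne _ _ hk', co_apply_ne _ _ hk', co_apply_ne _ _ hk', add_zero]
  have co_smul : ∀ (c : ℂ) (a : ∀ n, Matrix (X n) (X n) ℂ) (x : ℕ → ℂ) (k : ℕ),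
      co e (c • a) x k = c * co e a x k := by
    intro c a x k
    by_cases hk : ∃ p, e p = k
    · obtain ⟨⟨n, i⟩, rfl⟩ := hk
      rw [co_apply he, co_apply he, Finset.mul_sum]
      refine Finset.sum_congr rfl fun j _ => ?_
      rw [Pi.smul_apply, Matrix.smul_apply, smul_eq_mul]
      ring
    · have hk' : ∀ p, e p ≠ k := fun p hp => hk ⟨p, hp⟩
      rw [co_apply_ne _ _ hk', co_apply_ne _ _ hk', mul_zero]
  let J₀ : Vb →ₗ[ℂ] BL :=
    { toFun := fun a => blk he a.1 a.2.choose a.2.choose_spec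
      map_add' := by
        intro a b
        apply blk_ext
        intro x k
        rw [_root_.add_apply, lp.coeFn_add, Pi.add_apply, blk_apply, blk_apply,
          blk_apply]
        exact co_add a.1 b.1 x k
      map_smul' := by
        intro c a
        apply blk_ext
        intro x k
        rw [RingHom.id_apply, _root_.smul_apply, lp.coeFn_smul, Pi.smul_apply,
          blk_apply, blk_apply]
        exact co_smul c a.1 x k }
  obtain ⟨J, hJ⟩ := LinearMap.exists_extend J₀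
  have hJb : ∀ (a : ∀ n, Matrix (X n) (X n) ℂ) (C : ℝ) (h : ∀ n, OpBd (a n) C),
      J a = blk he a C h := by
    intro a C h
    have h1 : J a = J₀ ⟨a, C, h⟩ := by
      rw [← hJ]
      rfl
    rw [h1]
    exact blk_ext _ _ fun x k => rfl
  refine ⟨J, ?_, ?_, ?_⟩
  · intro a C h
    rw [hJb a C h]
    exact blk_norm he a C h
  · intro a C h n
    rw [hJb a C h]
    ext i j
    unfold cut
    rw [blk_apply, co_apply he, Finset.sum_eq_single j]
    · rw [dl_apply, if_pos rfl, mul_one]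
    · intro j' _ hj
      rw [dl_apply, if_neg, mul_zero]
      intro h'
      have := he h'
      apply hj
      simpa using this
    · intro h'
      exact absurd (Finset.mem_univ _) h'
  · rintro a ⟨N, hN⟩
    choose Cn hCn using fun n => exists_OpBd (a n)
    have hbd : ∀ n, OpBd (a n) (∑ m ∈ Finset.range (N + 1), Cn m) := by
      intro n
      by_cases hn : n ≤ N
      · refine OpBd_mono (hCn n) ?_
        exact Finset.single_le_sum (f := Cn) (fun m _ => (hCn m).1) (Finset.mem_range.2 (by omega))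
      · rw [hN n (by omega)]
        exact OpBd_mono OpBd_zero (Finset.sum_nonneg fun m _ => (hCn m).1)
    rw [hJb a _ hbd]
    set T := blk he a _ hbd with hT
    set g : (Σ n : Fin (N + 1), X n) → L2 := fun p => dl (e ⟨p.1, p.2⟩) with hg
    let V : Submodule ℂ L2 := Submodule.span ℂ (Set.range g)
    have hfin : FiniteDimensional ℂ V := FiniteDimensional.span_of_finite ℂ (Set.finite_range g)
    have hmem : ∀ x, T x ∈ V := by
      intro x
      have h1 : T x = ∑ p : (Σ n : Fin (N + 1), X n), (T x (e ⟨p.1, p.2⟩)) • g p := by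
        apply lp.ext
        funext k
        rw [coe_sum']
        simp only [lp.coeFn_smul, Pi.smul_apply, hg, dl_apply, smul_eq_mul]
        by_cases hk : ∃ p : (Σ n : Fin (N + 1), X n), k = e ⟨p.1, p.2⟩
        · obtain ⟨p, rfl⟩ := hk
          rw [Finset.sum_eq_single p]
          · simp
          · intro q _ hq
            rw [if_neg, mul_zero]
            intro h'
            have h2 := he h'
            apply hq
            obtain ⟨q1, q2⟩ := q
            obtain ⟨p1, p2⟩ := p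
            have h3 : (p1 : ℕ) = q1 := congrArg Sigma.fst h2
            have h4 : p1 = q1 := Fin.ext h3
            subst h4
            simpa using h2.symm
          · intro h'
            exact absurd (Finset.mem_univ _) h'
        · have hz : ∑ p : (Σ n : Fin (N + 1), X n), T x (e ⟨p.1, p.2⟩) *
              (if k = e ⟨p.1, p.2⟩ then (1 : ℂ) else 0) = 0 := by
            refine Finset.sum_eq_zero fun p _ => ?_
            rw [if_neg (fun h' => hk ⟨p, h'⟩), mul_zero]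
          rw [hz, hT, blk_apply]
          by_cases hk2 : ∃ p, e p = k
          · obtain ⟨⟨n, i⟩, rfl⟩ := hk2
            have hn : N < n := by
              by_contra hn
              exact hk ⟨⟨⟨n, by omega⟩, i⟩, rfl⟩
            rw [co_apply he, hN n hn]
            simp
          · exact co_apply_ne _ _ fun p hp => hk2 ⟨p, hp⟩
      rw [h1]
      exact Submodule.sum_mem _ fun p _ => Submodule.smul_mem _ _ (Submodule.subset_span ⟨p, rfl⟩)
    have h2 : IsCompactOperator (V.subtypeL : V → L2) :=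
      isCompactOperator_of_locallyCompactSpace_rng V.subtypeL
    have h3 := h2.comp_clm (T.codRestrict V hmem)
    exact h3

end Pool.Agent.Helper23.KC
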