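import Pool.Agent.Compl.Defs

set_option autoImplicit false

/-!
A Hahn-Banach alternative.
-/

open scoped ComplexConjugate BigOperators
open Pool.Agent.Compl

namespace Pool.Agent.Helper23.KC

section frm

variable {X : Type*} [Fintype X]

lemma UB_smul {ξ : X → ℂ} (hξ : UB ξ) {u : ℂ} (hu : ‖u‖ ≤ 1) : UB (fun i => u * ξ i) := by
  unfold UB at *
  refine le_trans (Finset.sum_le_sum fun i _ => ?_) hξ
  rw [norm_mul, mul_pow]
  have h1 : ‖u‖ ^ 2 ≤ 1 := by nlinarith [norm_nonneg u]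
  nlinarith [sq_nonneg ‖ξ i‖]

lemma UB_single [DecidableEq X] (i : X) : UB (Pi.single i (1 : ℂ) : X → ℂ) := by
  unfold UB
  rw [Finset.sum_eq_single i]
  · simp
  · intro j _ hj
    simp [Pi.single_eq_of_ne hj]
  · intro h
    exact absurd (Finset.mem_univ i) h

lemma frm_smul (M : Matrix X X ℂ) (ξ η : X → ℂ) (u : ℂ) :
    frm M (fun i => u * ξ i) η = u * frm M ξ η := by
  unfold frm
  rw [Finset.mul_sum]
  refine Finset.sum_congr rfl fun i _ => ?_
  rw [Finset.mul_sum]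
  refine Finset.sum_congr rfl fun j _ => ?_
  ring

lemma norm_le_of_re {z : ℂ} {C : ℝ} (h : ∀ u : ℂ, ‖u‖ ≤ 1 → (u * z).re ≤ C) : ‖z‖ ≤ C := by
  by_cases hz : z = 0
  · have := h 0 (by simp)
    simp only [zero_mul, Complex.zero_re] at this
    rw [hz, norm_zero]
    exact this
  · have hz' : (‖z‖ : ℂ) ≠ 0 := by
      simpa using hz
    have h1 : ‖conj z / (‖z‖ : ℂ)‖ ≤ 1 := by
      rw [norm_div, RCLike.norm_conj, Complex.norm_real, norm_norm, div_self (norm_ne_zero_iff.2 hz)]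
    have h2 := h _ h1
    have h3 : conj z / (‖z‖ : ℂ) * z = (‖z‖ : ℂ) := by
      rw [div_mul_eq_mul_div, div_eq_iff hz', Complex.conj_mul']
      ring
    rw [h3, Complex.ofReal_re] at h2
    exact h2

end frm

section

variable {V : Type*} [AddCommGroup V] [Module ℂ V] {X : Type*} [Fintype X]

/-- the elements with a certificate -/
def Cert (bd : V → ℝ → Prop) (V0 : Submodule ℂ V) {ι : Type*} (F : ι → V)
    (M : ι → Matrix X X ℂ) (D ε : ℝ) (w : X → X → V) (t : ℝ) : Prop :=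
  ∃ (B L : ℕ) (a : Fin B → V) (C : Fin B → ℝ) (ξ η : Fin B → X → ℂ) (f : Fin L → ι)
      (c : Fin L → ℝ) (ξ' η' : Fin L → X → ℂ),
      (∀ b, bd (a b) (C b) ∧ UB (ξ b) ∧ UB (η b)) ∧ (∀ l, 0 ≤ c l ∧ UB (ξ' l) ∧ UB (η' l)) ∧
      (∀ i j, w i j - (∑ b, (ξ b j * conj (η b i)) • a b
        - ∑ l, ((c l : ℂ) * (ξ' l j * conj (η' l i))) • F (f l)) ∈ V0) ∧
      D * ∑ b, C b + ε * ∑ l, c l - ∑ l, c l * (frm (M (f l)) (ξ' l) (η' l)).re ≤ t

variable {bd : V → ℝ → Prop} {V0 : Submodule ℂ V} {ι : Type*} {F : ι → V}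
    {M : ι → Matrix X X ℂ} {D ε : ℝ}

lemma Cert.add {w w' : X → X → V} {t t' : ℝ} (h : Cert bd V0 F M D ε w t)
    (h' : Cert bd V0 F M D ε w' t') : Cert bd V0 F M D ε (w + w') (t + t') := by
  obtain ⟨B, L, a, C, ξ, η, f, c, ξ', η', h1, h2, h3, h4⟩ := h
  obtain ⟨B₂, L₂, a₂, C₂, ξ₂, η₂, f₂, c₂, ξ₂', η₂', k1, k2, k3, k4⟩ := h'
  refine ⟨B + B₂, L + L₂, Fin.append a a₂, Fin.append C C₂, Fin.append ξ ξ₂, Fin.append η η₂,
    Fin.append f f₂, Fin.append c c₂, Fin.append ξ' ξ₂', Fin.append η' η₂', ?_, ?_, ?_, ?_⟩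
  · intro b
    refine Fin.addCases (fun b => ?_) (fun b => ?_) b
    · simpa using h1 b
    · simpa using k1 b
  · intro b
    refine Fin.addCases (fun b => ?_) (fun b => ?_) b
    · simpa using h2 b
    · simpa using k2 b
  · intro i j
    have := V0.add_mem (h3 i j) (k3 i j)
    simp only [Fin.sum_univ_add, Fin.append_left, Fin.append_right, Pi.add_apply]
    convert this using 1
    abel
  · simp only [Fin.sum_univ_add, Fin.append_left, Fin.append_right]
    linarith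

lemma Cert.smul (bd_smul : ∀ a C (c : ℂ), bd a C → bd (c • a) (‖c‖ * C)) {w : X → X → V} {t : ℝ}
    (h : Cert bd V0 F M D ε w t) {r : ℝ} (hr : 0 ≤ r) :
    Cert bd V0 F M D ε ((r : ℂ) • w) (r * t) := by
  obtain ⟨B, L, a, C, ξ, η, f, c, ξ', η', h1, h2, h3, h4⟩ := h
  refine ⟨B, L, fun b => (r : ℂ) • a b, fun b => r * C b, ξ, η, f, fun l => r * c l, ξ', η',
    ?_, ?_, ?_, ?_⟩
  · intro b
    refine ⟨?_, (h1 b).2⟩
    have := bd_smul (a b) (C b) (r : ℂ) (h1 b).1
    rwa [Complex.norm_real, Real.norm_eq_abs, abs_of_nonneg hr] at this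
  · intro l
    exact ⟨mul_nonneg hr (h2 l).1, (h2 l).2⟩
  · intro i j
    have := V0.smul_mem (r : ℂ) (h3 i j)
    convert this using 1
    rw [smul_sub, smul_sub, Finset.smul_sum, Finset.smul_sum]
    simp only [Pi.smul_apply]
    congr 2
    · refine Finset.sum_congr rfl fun b _ => ?_
      rw [smul_smul, smul_smul, mul_comm]
    · refine Finset.sum_congr rfl fun l _ => ?_
      rw [smul_smul]
      push_cast
      rw [mul_assoc]
  · have e1 : ∑ b, r * C b = r * ∑ b, C b := by rw [Finset.mul_sum]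
    have e2 : ∑ l, r * c l = r * ∑ l, c l := by rw [Finset.mul_sum]
    have e3 : ∑ l, r * c l * (frm (M (f l)) (ξ' l) (η' l)).re =
        r * ∑ l, c l * (frm (M (f l)) (ξ' l) (η' l)).re := by
      rw [Finset.mul_sum]
      exact Finset.sum_congr rfl fun l _ => by ring
    rw [e1, e2, e3]
    nlinarith

lemma Cert.mono {w : X → X → V} {t t' : ℝ}
    (h : Cert bd V0 F M D ε w t) (ht : t ≤ t') : Cert bd V0 F M D ε w t' := by
  obtain ⟨B, L, a, C, ξ, η, f, c, ξ', η', h1, h2, h3, h4⟩ := h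
  exact ⟨B, L, a, C, ξ, η, f, c, ξ', η', h1, h2, h3, h4.trans ht⟩

lemma cert_V0 {w : X → X → V} (hw : ∀ i j, w i j ∈ V0) : Cert bd V0 F M D ε w 0 := by
  refine ⟨0, 0, Fin.elim0, Fin.elim0, Fin.elim0, Fin.elim0, Fin.elim0, Fin.elim0, Fin.elim0,
    Fin.elim0, fun b => b.elim0, fun l => l.elim0, ?_, ?_⟩
  · intro i j
    simpa using hw i j
  · simp

lemma cert_bd {a : V} {C : ℝ} (h : bd a C) {ξ η : X → ℂ} (hξ : UB ξ) (hη : UB η) :
    Cert bd V0 F M D ε (fun i j => (ξ j * conj (η i)) • a) (D * C) := by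
  refine ⟨1, 0, fun _ => a, fun _ => C, fun _ => ξ, fun _ => η, Fin.elim0, Fin.elim0, Fin.elim0,
    Fin.elim0, fun b => ⟨h, hξ, hη⟩, fun l => l.elim0, ?_, ?_⟩
  · intro i j
    simp
  · simp

lemma cert_F (i₀ : ι) {ξ η : X → ℂ} (hξ : UB ξ) (hη : UB η) :
    Cert bd V0 F M D ε (fun i j => -((ξ j * conj (η i)) • F i₀))
      (ε - (frm (M i₀) ξ η).re) := by
  refine ⟨0, 1, Fin.elim0, Fin.elim0, Fin.elim0, Fin.elim0, fun _ => i₀, fun _ => 1, fun _ => ξ,
    fun _ => η, fun b => b.elim0, fun l => ⟨zero_le_one, hξ, hη⟩, ?_, ?_⟩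
  · intro i j
    simp
  · simp

end

section main

variable {V : Type*} [AddCommGroup V] [Module ℂ V] {X : Type*} [Fintype X] [DecidableEq X]

/-- the coordinate inclusion -/
def sgl {U : Type*} [AddCommGroup U] [Module ℂ U] (i j : X) : U →ₗ[ℂ] (X → X → U) where
  toFun a i' j' := if i' = i ∧ j' = j then a else 0
  map_add' a b := by
    funext i' j'
    simp only [Pi.add_apply]
    split_ifs <;> simp
  map_smul' c a := by
    funext i' j'
    simp only [Pi.smul_apply, RingHom.id_apply]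
    split_ifs <;> simp

lemma sgl_apply {U : Type*} [AddCommGroup U] [Module ℂ U] (i j : X) (a : U) (i' j' : X) :
    sgl i j a i' j' = if i' = i ∧ j' = j then a else 0 := rfl

lemma sum_sgl {U : Type*} [AddCommGroup U] [Module ℂ U] (w : X → X → U) :
    w = ∑ i, ∑ j, sgl i j (w i j) := by
  funext i' j'
  simp only [Finset.sum_apply, sgl_apply]
  rw [Finset.sum_eq_single i', Finset.sum_eq_single j']
  · simp
  · intro j _ hj
    simp [Ne.symm hj]
  · intro h
    exact absurd (Finset.mem_univ _) h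
  · intro i _ hi
    refine Finset.sum_eq_zero fun j _ => ?_
    simp [Ne.symm hi]
  · intro h
    exact absurd (Finset.mem_univ _) h

theorem hahn
    (bd : V → ℝ → Prop) (bd_nonneg : ∀ a C, bd a C → 0 ≤ C) (bd_zero : bd 0 0)
    (bd_smul : ∀ a C (c : ℂ), bd a C → bd (c • a) (‖c‖ * C))
    (bd_add : ∀ a b C D, bd a C → bd b D → bd (a + b) (C + D))
    (V0 : Submodule ℂ V) (hV0 : ∀ a ∈ V0, ∃ C, bd a C)
    {ι : Type*} (F : ι → V) (hF : ∀ i, ∃ C, bd (F i) C) (M : ι → Matrix X X ℂ)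
    (D ε : ℝ) (hD : 0 ≤ D) (hε : 0 ≤ ε) :
    (∃ T : V →ₗ[ℂ] Matrix X X ℂ, (∀ a ∈ V0, T a = 0) ∧
      (∀ a C, bd a C → ∀ ξ η, UB ξ → UB η → ‖frm (T a) ξ η‖ ≤ D * C) ∧
      (∀ i ξ η, UB ξ → UB η → ‖frm (T (F i) - M i) ξ η‖ ≤ ε)) ∨
    (∃ (B L : ℕ) (a : Fin B → V) (C : Fin B → ℝ) (ξ η : Fin B → X → ℂ) (f : Fin L → ι)
      (c : Fin L → ℝ) (ξ' η' : Fin L → X → ℂ),
      (∀ b, bd (a b) (C b) ∧ UB (ξ b) ∧ UB (η b)) ∧ (∀ l, 0 ≤ c l ∧ UB (ξ' l) ∧ UB (η' l)) ∧
      (∀ i j, ∑ b, (ξ b j * conj (η b i)) • a b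
        - ∑ l, ((c l : ℂ) * (ξ' l j * conj (η' l i))) • F (f l) ∈ V0) ∧
      D * ∑ b, C b + ε * ∑ l, c l < ∑ l, c l * (frm (M (f l)) (ξ' l) (η' l)).re) := by
  classical
  by_cases hcert : ∃ t < 0, Cert bd V0 F M D ε (0 : X → X → V) t
  · right
    obtain ⟨t, ht, B, L, a, C, ξ, η, f, c, ξ', η', h1, h2, h3, h4⟩ := hcert
    refine ⟨B, L, a, C, ξ, η, f, c, ξ', η', h1, h2, fun i j => ?_, by linarith⟩
    have := V0.neg_mem (h3 i j)
    simpa using this
  left
  push Not at hcert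
  -- the space of bounded elements
  let Vb : Submodule ℂ V :=
    { carrier := {a | ∃ C, bd a C}
      add_mem' := by
        rintro a b ⟨C, hC⟩ ⟨C', hC'⟩
        exact ⟨_, bd_add _ _ _ _ hC hC'⟩
      zero_mem' := ⟨0, bd_zero⟩
      smul_mem' := by
        rintro c a ⟨C, hC⟩
        exact ⟨_, bd_smul _ _ c hC⟩ }
  let ι₀ : (X → X → Vb) →ₗ[ℂ] (X → X → V) :=
    { toFun := fun w i j => (w i j : V)
      map_add' := fun _ _ => rfl
      map_smul' := fun _ _ => rfl }
  let W : Type _ := X → X → Vb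
  let s : PointedCone ℝ (W × ℝ) :=
    { carrier := {p | Cert bd V0 F M D ε (ι₀ p.1) p.2}
      add_mem' := by
        intro p q hp hq
        have := Cert.add hp hq
        simpa only [Set.mem_ofPred_eq, Prod.fst_add, Prod.snd_add, map_add] using this
      zero_mem' := cert_V0 (fun i j => V0.zero_mem)
      smul_mem' := by
        intro r p hp
        have := Cert.smul bd_smul hp r.2
        exact this }
  let dom : Submodule ℝ (W × ℝ) := Submodule.prod ⊥ ⊤
  let f₀ : (W × ℝ) →ₗ.[ℝ] ℝ := ⟨dom, (LinearMap.snd ℝ W ℝ).comp dom.subtype⟩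
  have hnonneg : ∀ x : f₀.domain, (x : W × ℝ) ∈ s → 0 ≤ f₀ x := by
    rintro ⟨⟨w, t⟩, hw, ht⟩ hmem
    have hw0 : w = 0 := by simpa using hw
    subst hw0
    show 0 ≤ t
    by_contra hlt
    exact hcert t (not_le.1 hlt) hmem
  have hdense : ∀ y : W × ℝ, ∃ x : f₀.domain, (x : W × ℝ) + y ∈ s := by
    rintro ⟨w, t⟩
    choose Cw hCw using fun p : X × X => (w p.1 p.2).2
    let e : X × X ≃ Fin (Fintype.card (X × X)) := Fintype.equivFin (X × X)
    refine ⟨⟨(0, D * ∑ p, Cw p - t), by simp [f₀, dom]⟩, ?_⟩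
    show Cert bd V0 F M D ε (ι₀ (0 + w)) (D * ∑ p, Cw p - t + t)
    rw [zero_add, sub_add_cancel]
    refine ⟨Fintype.card (X × X), 0, fun b => (w (e.symm b).1 (e.symm b).2 : V),
      fun b => Cw (e.symm b), fun b => Pi.single (e.symm b).2 1, fun b => Pi.single (e.symm b).1 1,
      Fin.elim0, Fin.elim0, Fin.elim0, Fin.elim0,
      fun b => ⟨hCw _, UB_single _, UB_single _⟩, fun l => l.elim0, ?_, ?_⟩
    · intro i j
      have h1 : ∑ b, ((Pi.single (e.symm b).2 (1 : ℂ) : X → ℂ) j *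
          conj ((Pi.single (e.symm b).1 (1 : ℂ) : X → ℂ) i)) • (w (e.symm b).1 (e.symm b).2 : V) =
          ∑ p : X × X, ((Pi.single p.2 (1 : ℂ) : X → ℂ) j *
          conj ((Pi.single p.1 (1 : ℂ) : X → ℂ) i)) • (w p.1 p.2 : V) :=
        Equiv.sum_comp e.symm fun p : X × X => ((Pi.single p.2 (1 : ℂ) : X → ℂ) j *
          conj ((Pi.single p.1 (1 : ℂ) : X → ℂ) i)) • (w p.1 p.2 : V)
      rw [h1, Finset.sum_eq_single (i, j)]
      · simp [ι₀]
      · rintro ⟨i', j'⟩ _ hne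
        by_cases hi : i = i'
        · have hj : j ≠ j' := by
            rintro rfl
            exact hne (by rw [hi])
          simp [Pi.single_eq_of_ne hj]
        · simp [Pi.single_eq_of_ne hi]
      · intro h
        exact absurd (Finset.mem_univ _) h
    · have h1 : ∑ b, Cw (e.symm b) = ∑ p, Cw p := Equiv.sum_comp e.symm Cw
      rw [h1]
      simp
  obtain ⟨g, hg1, hg2⟩ := riesz_extension s f₀ hnonneg hdense
  have hg0 : ∀ t : ℝ, g (0, t) = t := by
    intro t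
    have := hg1 ⟨(0, t), by simp [f₀, dom]⟩
    exact this
  have hgs : ∀ (w : W) (t : ℝ), Cert bd V0 F M D ε (ι₀ w) t → -g (w, 0) ≤ t := by
    intro w t h
    have h1 : 0 ≤ g (w, t) := hg2 (w, t) h
    have h2 : (w, t) = ((w, 0) : W × ℝ) + (0, t) := by simp
    rw [h2, map_add, hg0] at h1
    linarith
  -- the real functional
  let Λ : W →ₗ[ℝ] ℝ := -(g.comp (LinearMap.inl ℝ W ℝ))
  have hΛ : ∀ w, Λ w = -g (w, 0) := fun w => rfl
  have hΛs : ∀ (w : W) (t : ℝ), Cert bd V0 F M D ε (ι₀ w) t → Λ w ≤ t := fun w t h => hgs w t h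
  have hΛ0 : ∀ w : W, (∀ i j, (w i j : V) ∈ V0) → Λ w = 0 := by
    intro w hw
    refine le_antisymm (hΛs w 0 (cert_V0 hw)) ?_
    have := hΛs (-w) 0 (cert_V0 fun i j => V0.neg_mem (hw i j))
    rw [map_neg] at this
    linarith
  -- the complex functional
  let Λc : W →ₗ[ℂ] ℂ :=
    { toFun := fun w => (Λ w : ℂ) - Complex.I * (Λ (Complex.I • w) : ℂ)
      map_add' := by
        intro w w'
        rw [smul_add, map_add, map_add]
        push_cast
        ring
      map_smul' := by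
        intro c w
        have e1 : ∀ (c : ℂ) (w : W), Λ (c • w) = c.re * Λ w + c.im * Λ (Complex.I • w) := by
          intro c w
          have : c • w = c.re • w + c.im • (Complex.I • w) := by
            conv_lhs => rw [← Complex.re_add_im c, add_smul, mul_smul]
            rfl
          rw [this, map_add, map_smul, map_smul, smul_eq_mul, smul_eq_mul]
        have e2 : Λ (Complex.I • c • w) = -c.im * Λ w + c.re * Λ (Complex.I • w) := by
          rw [smul_smul, e1]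
          simp
        rw [e1 c w, e2]
        simp only [RingHom.id_apply, smul_eq_mul]
        conv_rhs => rw [← Complex.re_add_im c]
        push_cast
        linear_combination ((c.im : ℂ) * (Λ (Complex.I • w) : ℂ)) * Complex.I_mul_I }
  have hΛc : ∀ w, (Λc w).re = Λ w := by
    intro w
    show ((Λ w : ℂ) - Complex.I * (Λ (Complex.I • w) : ℂ)).re = Λ w
    simp
  let sg : X → X → Vb →ₗ[ℂ] W := fun i j => sgl i j
  let T₀ : Vb →ₗ[ℂ] Matrix X X ℂ :=
    { toFun := fun a i j => Λc (sg i j a)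
      map_add' := by
        intro a b
        ext i j
        simp
      map_smul' := by
        intro c a
        ext i j
        simp }
  have hfrm : ∀ (a : Vb) (ξ η : X → ℂ), frm (T₀ a) ξ η =
      Λc (fun i j => (ξ j * conj (η i)) • a) := by
    intro a ξ η
    have h1 : (fun i j => (ξ j * conj (η i)) • a : W) =
        ∑ i, ∑ j, sg i j ((ξ j * conj (η i)) • a) := sum_sgl _
    rw [h1, map_sum]
    unfold frm
    refine Finset.sum_congr rfl fun i _ => ?_
    rw [map_sum]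
    refine Finset.sum_congr rfl fun j _ => ?_
    rw [map_smul, map_smul, smul_eq_mul]
    show conj (η i) * Λc (sg i j a) * ξ j = _
    ring
  obtain ⟨T, hT⟩ := LinearMap.exists_extend T₀
  have hTb : ∀ a : Vb, T (a : V) = T₀ a := fun a => by
    rw [← hT]; rfl
  refine ⟨T, ?_, ?_, ?_⟩
  · intro a ha
    have := hTb ⟨a, hV0 a ha⟩
    simp only at this
    rw [this]
    ext i j
    show Λc (sg i j ⟨a, hV0 a ha⟩) = 0
    have h1 : ∀ c : ℂ, ∀ i' j', ((c • sg i j ⟨a, hV0 a ha⟩ : W) i' j' : V) ∈ V0 := by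
      intro c i' j'
      show ((c • (if i' = i ∧ j' = j then (⟨a, hV0 a ha⟩ : Vb) else 0) : Vb) : V) ∈ V0
      split_ifs
      · exact V0.smul_mem c ha
      · simp
    have h2 := hΛ0 _ (h1 1)
    have h3 := hΛ0 _ (h1 Complex.I)
    rw [one_smul] at h2
    show ((Λ (sg i j ⟨a, hV0 a ha⟩) : ℂ) -
      Complex.I * (Λ (Complex.I • sg i j ⟨a, hV0 a ha⟩) : ℂ)) = 0
    rw [h2, h3]
    simp
  · intro a C hC ξ η hξ hη
    have h0 := hTb ⟨a, C, hC⟩
    simp only at h0
    rw [h0]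
    refine norm_le_of_re fun u hu => ?_
    rw [← frm_smul, hfrm, hΛc]
    exact hΛs _ _ (cert_bd hC (UB_smul hξ hu) hη)
  · intro i ξ η hξ hη
    have h0 := hTb ⟨F i, hF i⟩
    simp only at h0
    rw [h0]
    rw [← norm_neg]
    refine norm_le_of_re fun u hu => ?_
    have h1 : u * -frm (T₀ ⟨F i, hF i⟩ - M i) ξ η =
        frm (M i) (fun k => u * ξ k) η - frm (T₀ ⟨F i, hF i⟩) (fun k => u * ξ k) η := by
      rw [frm_smul, frm_smul, ← mul_sub]
      congr 1
      unfold frm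
      rw [← Finset.sum_sub_distrib, ← Finset.sum_neg_distrib]
      refine Finset.sum_congr rfl fun i' _ => ?_
      rw [← Finset.sum_sub_distrib, ← Finset.sum_neg_distrib]
      refine Finset.sum_congr rfl fun j' _ => ?_
      rw [Matrix.sub_apply]
      ring
    rw [h1, Complex.sub_re, hfrm, hΛc]
    have h2 := hΛs (-(fun i' j' => ((u * ξ j') * conj (η i')) • (⟨F i, hF i⟩ : Vb)))
      (ε - (frm (M i) (fun k => u * ξ k) η).re)
      (cert_F i (UB_smul hξ hu) hη)
    rw [map_neg] at h2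
    linarith

end main

end Pool.Agent.Helper23.KC
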